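import Mathlib
import Pool.Graph.R_pool_sql_team_seeded_ab47071d.TH459.OwingsE

set_option autoImplicit false

/-! # Monochromatic sumsets `X + X` in monoids and groups -/

namespace Pool.Agent.KS6_5.Owings

universe u

/-- Every `r`-colouring of `M` has an infinite set `X` with `X + X` monochromatic. -/
def Good (M : Type u) [Add M] (r : ℕ) : Prop :=
  ∀ c : M → Fin r, ∃ X : Set M, X.Infinite ∧ ∃ i : Fin r, ∀ x ∈ X, ∀ y ∈ X, c (x + y) = i

/-- Two colours: every monoid with an element of infinite order. -/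
theorem good_two {M : Type u} [AddMonoid M] (g : M)
    (hg : Function.Injective fun n : ℕ => n • g) : Good M 2 := by
  intro c
  obtain ⟨X, hX, b, hb⟩ :=
    Pool.Agent.TH459.Owings.owings (fun n => decide (c (n • g) = 1))
  refine ⟨(fun n : ℕ => n • g) '' X, hX.image hg.injOn, if b then 1 else 0, ?_⟩
  rintro _ ⟨x, hx, rfl⟩ _ ⟨y, hy, rfl⟩
  have h1 := hb x hx y hy
  simp only at h1 ⊢
  rw [add_nsmul] at h1
  cases b
  · simp only [decide_eq_false_iff_not] at h1
    simp only [Bool.false_eq_true, if_false]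
    revert h1
    generalize c (x • g + y • g) = v
    revert v
    decide
  · simpa using h1

/-- The numerical fact behind the colouring with three colours. -/
theorem log_ne {a b : ℕ} (hb : 0 < b) (h1 : 7 * b ≤ 8 * a) (h2 : 8 * a ≤ 9 * b) :
    Nat.log 8 (a ^ 4) % 3 ≠ Nat.log 8 ((2 * b) ^ 4) % 3 := by
  have ha : 0 < a := by omega
  have ha4 : a ^ 4 ≠ 0 := by positivity
  have hb4 : (2 * b) ^ 4 ≠ 0 := by positivity
  set A := Nat.log 8 (a ^ 4) with hA
  set B := Nat.log 8 ((2 * b) ^ 4) with hB
  have hA1 : 8 ^ A ≤ a ^ 4 := Nat.pow_log_le_self 8 ha4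
  have hA2 : a ^ 4 < 8 ^ (A + 1) := Nat.lt_pow_succ_log_self (by norm_num) _
  have p1 : (8 * a) ^ 4 ≤ (9 * b) ^ 4 := Nat.pow_le_pow_left h2 4
  have p2 : (7 * b) ^ 4 ≤ (8 * a) ^ 4 := Nat.pow_le_pow_left h1 4
  rw [mul_pow, mul_pow] at p1 p2
  have e : (2 * b) ^ 4 = 16 * b ^ 4 := by ring
  have hAB : A + 1 ≤ B := by
    rw [hB]
    apply Nat.le_log_of_pow_le (by norm_num)
    rw [pow_succ, e]
    omega
  have hBA : B < A + 3 := by
    rw [hB]
    apply Nat.log_lt_of_lt_pow hb4
    have : (8 : ℕ) ^ (A + 3) = 64 * 8 ^ (A + 1) := by ring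
    rw [this, e]
    omega
  omega

/-- Three colours suffice in the presence of a proper subadditive function. -/
theorem not_good_three {G : Type u} [AddCommGroup G] (N : G → ℕ)
    (hadd : ∀ x y, N (x + y) ≤ N x + N y) (hneg : ∀ x, N (-x) = N x)
    (hdbl : ∀ x, N (x + x) = 2 * N x) (hfin : ∀ k, {x | N x ≤ k}.Finite) : ¬ Good G 3 := by
  intro h
  obtain ⟨X, hX, i, hi⟩ := h (fun g => ⟨Nat.log 8 (N g ^ 4) % 3, Nat.mod_lt _ (by norm_num)⟩)
  obtain ⟨x, hx⟩ := hX.nonempty
  obtain ⟨y, hy, hyN⟩ : ∃ y ∈ X, 8 * N x + 1 ≤ N y := by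
    by_contra hcon
    push Not at hcon
    apply hX
    exact (hfin (8 * N x + 1)).subset (fun y hy => (hcon y hy).le)
  have h1 := hi x hx y hy
  have h2 := hi y hy y hy
  rw [← h2] at h1
  have h3 := congrArg Fin.val h1
  simp only at h3
  rw [hdbl] at h3
  have h4 : N y ≤ N (x + y) + N x := by
    have := hadd (x + y) (-x)
    rw [hneg] at this
    have e : x + y + -x = y := by abel
    rwa [e] at this
  have h5 := hadd x y
  exact log_ne (by omega) (by omega) (by omega) h3

/-- The supremum norm of an integer vector. -/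
def supN {n : ℕ} (v : Fin n →₀ ℤ) : ℕ := Finset.univ.sup fun i => (v i).natAbs

theorem supN_fin {n : ℕ} (k : ℕ) : {v : Fin n →₀ ℤ | supN v ≤ k}.Finite := by
  have : {v : Fin n →₀ ℤ | supN v ≤ k} ⊆ (fun v : Fin n →₀ ℤ => (v : Fin n → ℤ)) ⁻¹'
      (Set.Icc (fun _ => -(k : ℤ)) (fun _ => (k : ℤ))) := by
    intro v hv
    have h1 : ∀ i, (v i).natAbs ≤ k := fun i =>
      (Finset.le_sup (f := fun i => (v i).natAbs) (Finset.mem_univ i)).trans hv
    constructor <;> intro i <;> have := h1 i
    · change -(k : ℤ) ≤ v i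
      omega
    · change v i ≤ (k : ℤ)
      omega
  refine Set.Finite.subset ?_ this
  exact (Set.finite_Icc _ _).preimage (DFunLike.coe_injective.injOn)

theorem not_good_three_fg {G : Type u} [AddCommGroup G] [AddGroup.FG G] : ¬ Good G 3 := by
  obtain ⟨n, ι, _, p, hp, e, ⟨φ⟩⟩ := AddCommGroup.equiv_free_prod_directSum_zmod G
  classical
  have hne : ∀ i, NeZero (p i ^ e i) := fun i => ⟨pow_ne_zero _ (hp i).ne_zero⟩
  have hfinite : Finite (DirectSum ι fun i => ZMod (p i ^ e i)) := by
    have : ∀ i, Finite (ZMod (p i ^ e i)) := fun i => by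
      have := hne i
      infer_instance
    exact Finite.of_injective (DirectSum.addEquivProd fun i => ZMod (p i ^ e i))
      (DirectSum.addEquivProd _).injective
  refine not_good_three (fun g => supN (φ g).1) ?_ ?_ ?_ ?_
  · intro x y
    simp only [map_add, Prod.fst_add]
    unfold supN
    apply Finset.sup_le
    intro i _
    rw [Finsupp.add_apply]
    refine (Int.natAbs_add_le _ _).trans (add_le_add ?_ ?_)
    · exact Finset.le_sup (f := fun i => ((φ x).1 i).natAbs) (Finset.mem_univ i)
    · exact Finset.le_sup (f := fun i => ((φ y).1 i).natAbs) (Finset.mem_univ i)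
  · intro x
    unfold supN
    simp only [map_neg, Prod.fst_neg, Finsupp.neg_apply, Int.natAbs_neg]
  · intro x
    rw [map_add, Prod.fst_add]
    unfold supN
    apply le_antisymm
    · apply Finset.sup_le
      intro i _
      rw [Finsupp.add_apply]
      have : ((φ x).1 i).natAbs ≤ Finset.univ.sup fun i => ((φ x).1 i).natAbs :=
        Finset.le_sup (f := fun i => ((φ x).1 i).natAbs) (Finset.mem_univ i)
      omega
    · rcases Nat.eq_zero_or_pos n with rfl | hn
      · simp
      · have hne : (Finset.univ : Finset (Fin n)).Nonempty := ⟨⟨0, hn⟩, Finset.mem_univ _⟩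
        obtain ⟨i, -, hi⟩ := Finset.exists_mem_eq_sup _ hne (fun i => ((φ x).1 i).natAbs)
        rw [hi]
        refine le_trans ?_ (Finset.le_sup (f := fun i => (((φ x).1 + (φ x).1) i).natAbs)
          (Finset.mem_univ i))
        simp only [Finsupp.add_apply]
        omega
  · intro k
    have hs : {x : G | supN (φ x).1 ≤ k} ⊆
        φ ⁻¹' ({v : Fin n →₀ ℤ | supN v ≤ k} ×ˢ (Set.univ : Set
          (DirectSum ι fun i => ZMod (p i ^ e i)))) := by
      intro x hx
      exact ⟨hx, Set.mem_univ _⟩
    refine Set.Finite.subset ?_ hs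
    exact ((supN_fin k).prod Set.finite_univ).preimage φ.injective.injOn

theorem finite_directSum {ι : Type} [Fintype ι] (p e : ι → ℕ) (hp : ∀ i, (p i).Prime) :
    Finite (DirectSum ι fun i => ZMod (p i ^ e i)) := by
  classical
  have : ∀ i, Finite (ZMod (p i ^ e i)) := fun i => by
    have : NeZero (p i ^ e i) := ⟨pow_ne_zero _ (hp i).ne_zero⟩
    infer_instance
  exact Finite.of_injective (DirectSum.addEquivProd fun i => ZMod (p i ^ e i))
    (DirectSum.addEquivProd _).injective

theorem good_two_fg {G : Type u} [AddCommGroup G] [AddGroup.FG G] [Infinite G] : Good G 2 := by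
  obtain ⟨n, ι, _, p, hp, e, ⟨φ⟩⟩ := AddCommGroup.equiv_free_prod_directSum_zmod G
  have hfinite := finite_directSum p e hp
  rcases Nat.eq_zero_or_pos n with rfl | hn
  · exfalso
    have : Finite ((Fin 0 →₀ ℤ) × (DirectSum ι fun i => ZMod (p i ^ e i))) := inferInstance
    have : Finite G := Finite.of_injective φ φ.injective
    exact not_finite G
  · refine good_two (φ.symm (Finsupp.single ⟨0, hn⟩ 1, 0)) (fun a b h => ?_)
    have h1 := congrArg (fun x => (φ x).1 ⟨0, hn⟩) h
    simpa using h1

/-- Two colours are enough for the countable elementary abelian `2`-groups. -/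
theorem not_good_two_two : ¬ Good (ℕ →₀ ZMod 2) 2 := by
  intro h
  obtain ⟨X, hX, i, hi⟩ := h (fun v => if v = 0 then 0 else 1)
  obtain ⟨x, hx⟩ := hX.nonempty
  obtain ⟨y, hy, hyx⟩ := hX.exists_notMem_finset {x}
  rw [Finset.mem_singleton] at hyx
  have h1 := hi x hx y hy
  have h2 := hi x hx x hx
  have e1 : x + x = 0 := by
    ext j
    simp only [Finsupp.add_apply, Finsupp.zero_apply]
    exact CharTwo.add_self_eq_zero _
  have e2 : x + y ≠ 0 := by
    intro h0
    apply hyx
    have : y = x + x + y := by rw [e1, zero_add]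
    rw [this, add_assoc, h0, add_zero]
  rw [if_neg e2] at h1
  rw [if_pos e1] at h2
  rw [← h1] at h2
  exact absurd h2 (by decide)

/-- Two colours are enough for the countable elementary abelian `p`-groups if `2` is not a square
modulo `p`. -/
theorem not_good_two_prime (p : ℕ) [Fact p.Prime] (h2 : ¬ IsSquare (2 : ZMod p)) :
    ¬ Good (ℕ →₀ ZMod p) 2 := by
  classical
  intro h
  obtain ⟨X, hX, i, hi⟩ := h (fun v => if IsSquare (v (v.support.sup id)) then 0 else 1)
  obtain ⟨x, hx⟩ := hX.nonempty
  set m := x.support.sup id with hm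
  -- the vectors supported in `[0, m]` are finitely many
  have hfin : {v : ℕ →₀ ZMod p | v.support ⊆ Finset.range (m + 1)}.Finite := by
    have hinj : Function.Injective (fun v : {v : ℕ →₀ ZMod p // v.support ⊆ Finset.range (m + 1)} =>
        fun j : Fin (m + 1) => v.1 j) := by
      intro v w hvw
      apply Subtype.ext
      apply Finsupp.ext
      intro j
      by_cases hj : j < m + 1
      · exact congrFun hvw ⟨j, hj⟩
      · have h1 : v.1 j = 0 := by
          by_contra h0
          exact hj (Finset.mem_range.mp (v.2 (Finsupp.mem_support_iff.mpr h0)))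
        have h2 : w.1 j = 0 := by
          by_contra h0
          exact hj (Finset.mem_range.mp (w.2 (Finsupp.mem_support_iff.mpr h0)))
        rw [h1, h2]
    have hF : Finite {v : ℕ →₀ ZMod p // v.support ⊆ Finset.range (m + 1)} :=
      Finite.of_injective _ hinj
    exact hF
  obtain ⟨y, hy, hyM⟩ : ∃ y ∈ X, ¬ y.support ⊆ Finset.range (m + 1) := by
    by_contra hcon
    push Not at hcon
    exact hX (hfin.subset hcon)
  set M := y.support.sup id with hM
  have hMm : m < M := by
    by_contra hle
    apply hyM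
    intro j hj
    have : j ≤ M := Finset.le_sup (f := id) hj
    rw [Finset.mem_range]
    omega
  have hyne : y.support.Nonempty := by
    rw [Finset.nonempty_iff_ne_empty]
    intro h0
    apply hyM
    rw [h0]
    exact Finset.empty_subset _
  have hyM0 : y M ≠ 0 := by
    obtain ⟨j, hj, hj'⟩ := Finset.exists_mem_eq_sup y.support hyne id
    rw [hM, hj']
    exact Finsupp.mem_support_iff.mp hj
  have hygt : ∀ j, M < j → y j = 0 := by
    intro j hj
    by_contra h0
    have : j ≤ M := Finset.le_sup (f := id) (Finsupp.mem_support_iff.mpr h0)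
    omega
  have hxgt : ∀ j, m < j → x j = 0 := by
    intro j hj
    by_contra h0
    have : j ≤ m := Finset.le_sup (f := id) (Finsupp.mem_support_iff.mpr h0)
    omega
  have hlead : ∀ v : ℕ →₀ ZMod p, v M ≠ 0 → (∀ j, M < j → v j = 0) → v.support.sup id = M := by
    intro v h1 h2
    apply le_antisymm
    · apply Finset.sup_le
      intro j hj
      by_contra hlt
      exact (Finsupp.mem_support_iff.mp hj) (h2 j (not_le.mp hlt))
    · exact Finset.le_sup (f := id) (Finsupp.mem_support_iff.mpr h1)
  have e1 : (x + y) M = y M := by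
    rw [Finsupp.add_apply, hxgt M hMm, zero_add]
  have e2 : (y + y) M = y M + y M := Finsupp.add_apply _ _ _
  have h20 : (2 : ZMod p) ≠ 0 := fun h0 => h2 (by rw [h0]; exact IsSquare.zero)
  have hkey : ∀ t : ZMod p, t ≠ 0 → t + t ≠ 0 ∧ (IsSquare t ↔ ¬ IsSquare (t + t)) := by
    intro t ht
    have e : t + t = 2 * t := (two_mul t).symm
    have hne : t + t ≠ 0 := by rw [e]; exact mul_ne_zero h20 ht
    refine ⟨hne, ?_⟩
    rw [← quadraticChar_one_iff_isSquare ht, ← quadraticChar_one_iff_isSquare hne, e, map_mul,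
      quadraticChar_neg_one_iff_not_isSquare.mpr h2]
    rcases quadraticChar_dichotomy ht with h | h <;> rw [h] <;> norm_num
  have l1 : (x + y).support.sup id = M := hlead _ (by rw [e1]; exact hyM0) (fun j hj => by
    rw [Finsupp.add_apply, hxgt j (by omega), hygt j hj, zero_add])
  have l2 : (y + y).support.sup id = M := hlead _ (by rw [e2]; exact (hkey _ hyM0).1)
    (fun j hj => by rw [Finsupp.add_apply, hygt j hj, zero_add])
  have h1 := hi x hx y hy
  have h2 := hi y hy y hy
  rw [l1, e1] at h1
  rw [l2, e2] at h2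
  by_cases ht : IsSquare (y M)
  · rw [if_pos ht] at h1
    rw [if_neg ((hkey _ hyM0).2.mp ht)] at h2
    rw [← h1] at h2
    exact absurd h2 (by decide)
  · rw [if_neg ht] at h1
    have : IsSquare (y M + y M) := by
      by_contra h0
      exact ht ((hkey _ hyM0).2.mpr h0)
    rw [if_pos this] at h2
    rw [← h1] at h2
    exact absurd h2 (by decide)

end Pool.Agent.KS6_5.Owings
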